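import Mathlib

/-!
# The point pair function of the complement of a linear subspace is a metric

Let `L` be a proper linear subspace of `ℝⁿ` and `G` its complement. For `z` in `G` let `z'` be its
mirror image in `L`, so that `|z - z'| = 2 d(z)` and `|x - z'|² ≤ |x - z|² + 4 d(x) d(z)` for all `x`.
Ptolemy's inequality for `x, z, y, z'` gives
`2 d(z) |x - y| ≤ |x - z| √(|y - z|² + 4 d(y) d(z)) + |y - z| √(|x - z|² + 4 d(x) d(z))`,
which says `sinh w ≤ sinh (u + v)`, where `p(x,y) = tanh w`, `p(x,z) = tanh u`, `p(z,y) = tanh v`.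
-/

set_option autoImplicit false

open Metric Set
open scoped RealInnerProductSpace

namespace Pool.Agent.Results.MP_a15e14_gt.PointPairMetric

/-- The Euclidean distance `d_G(x)` of `x` to the boundary of `G`. -/
noncomputable def bdist {n : ℕ} (G : Set (EuclideanSpace ℝ (Fin n))) (x : EuclideanSpace ℝ (Fin n)) :
    ℝ :=
  infDist x (frontier G)

/-- The point pair function `p_G(x,y) = |x-y| / √(|x-y|² + 4 d_G(x) d_G(y))`. -/
noncomputable def pointPair {n : ℕ} (G : Set (EuclideanSpace ℝ (Fin n)))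
    (x y : EuclideanSpace ℝ (Fin n)) : ℝ :=
  dist x y / √(dist x y ^ 2 + 4 * bdist G x * bdist G y)

/-- The complement of the `z`-axis in `ℝ³`. -/
def offAxis : Set (EuclideanSpace ℝ (Fin 3)) := {x | ¬ (x 0 = 0 ∧ x 1 = 0)}

section aux

variable {n : ℕ} (L : Submodule ℝ (EuclideanSpace ℝ (Fin n)))

lemma inner_zero {u l : EuclideanSpace ℝ (Fin n)} (hu : u ∈ Lᗮ) (hl : l ∈ L) : ⟪u, l⟫ = 0 := by
  rw [real_inner_comm]
  exact (Submodule.mem_orthogonal L u).1 hu l hl

lemma infDist_eq (x : EuclideanSpace ℝ (Fin n)) :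
    infDist x (L : Set (EuclideanSpace ℝ (Fin n))) = ‖x - L.starProjection x‖ := by
  have hP : L.starProjection x ∈ L := Submodule.starProjection_apply_mem L x
  have hO : x - L.starProjection x ∈ Lᗮ := Submodule.sub_starProjection_mem_orthogonal x
  apply le_antisymm
  · rw [← dist_eq_norm]
    exact infDist_le_dist_of_mem hP
  · rw [le_infDist ⟨_, hP⟩]
    intro l hl
    rw [dist_eq_norm]
    have h1 : x - l = (x - L.starProjection x) + (L.starProjection x - l) := by abel
    have h2 : ⟪x - L.starProjection x, L.starProjection x - l⟫ = 0 :=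
      inner_zero L hO (L.sub_mem hP hl)
    have h3 : ‖x - l‖ ^ 2 = ‖x - L.starProjection x‖ ^ 2 + ‖L.starProjection x - l‖ ^ 2 := by
      rw [h1, norm_add_sq_real, h2]; ring
    refine (pow_le_pow_iff_left₀ (norm_nonneg _) (norm_nonneg _) two_ne_zero).1 ?_
    rw [h3]
    nlinarith [sq_nonneg ‖L.starProjection x - l‖]

/-- Ptolemy's inequality for `x, z, y` and the mirror image of `z`. -/
lemma ptolemy (x y z : EuclideanSpace ℝ (Fin n)) :
    dist x y * (2 * infDist z (L : Set (EuclideanSpace ℝ (Fin n)))) ≤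
      dist x z * √(dist z y ^ 2 + 4 * infDist z (L : Set (EuclideanSpace ℝ (Fin n))) *
        infDist y (L : Set (EuclideanSpace ℝ (Fin n)))) +
      dist z y * √(dist x z ^ 2 + 4 * infDist x (L : Set (EuclideanSpace ℝ (Fin n))) *
        infDist z (L : Set (EuclideanSpace ℝ (Fin n)))) := by
  set P := L.starProjection with hP
  set z' : EuclideanSpace ℝ (Fin n) := P z - (z - P z) with hz'
  have key : ∀ w : EuclideanSpace ℝ (Fin n), dist w z' ≤
      √(dist w z ^ 2 + 4 * infDist w (L : Set (EuclideanSpace ℝ (Fin n))) *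
        infDist z (L : Set (EuclideanSpace ℝ (Fin n)))) := by
    intro w
    apply Real.le_sqrt_of_sq_le
    rw [infDist_eq, infDist_eq, dist_eq_norm, dist_eq_norm]
    have hw : w - P w ∈ Lᗮ := Submodule.sub_starProjection_mem_orthogonal w
    have hz : z - P z ∈ Lᗮ := Submodule.sub_starProjection_mem_orthogonal z
    have hl : P w - P z ∈ L :=
      L.sub_mem (Submodule.starProjection_apply_mem L w) (Submodule.starProjection_apply_mem L z)
    have e1 : w - z' = ((w - P w) + (z - P z)) + (P w - P z) := by rw [hz']; abel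
    have e2 : w - z = ((w - P w) - (z - P z)) + (P w - P z) := by abel
    have o1 : ⟪(w - P w) + (z - P z), P w - P z⟫ = 0 := inner_zero L (Lᗮ.add_mem hw hz) hl
    have o2 : ⟪(w - P w) - (z - P z), P w - P z⟫ = 0 := inner_zero L (Lᗮ.sub_mem hw hz) hl
    rw [e1, e2, norm_add_sq_real, o1, norm_add_sq_real ((w - P w) - (z - P z)), o2,
      norm_add_sq_real (w - P w), norm_sub_sq_real (w - P w)]
    have h1 : ⟪w - P w, z - P z⟫ ≤ ‖w - P w‖ * ‖z - P z‖ := real_inner_le_norm _ _
    linarith
  have hzz : dist z z' = 2 * infDist z (L : Set (EuclideanSpace ℝ (Fin n))) := by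
    rw [infDist_eq, dist_eq_norm]
    have : z - z' = (2 : ℝ) • (z - P z) := by rw [hz']; module
    rw [this, norm_smul, hP]
    norm_num
  have hpt := EuclideanGeometry.mul_dist_le_mul_dist_add_mul_dist x z y z'
  rw [hzz] at hpt
  have k1 := key y
  have k2 := key x
  rw [dist_comm y z] at k1
  have k1' : dist y z' ≤ √(dist z y ^ 2 + 4 * infDist z (L : Set (EuclideanSpace ℝ (Fin n))) *
        infDist y (L : Set (EuclideanSpace ℝ (Fin n)))) := by
    refine k1.trans (le_of_eq ?_)
    congr 1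
    ring
  calc dist x y * (2 * infDist z (L : Set (EuclideanSpace ℝ (Fin n))))
      ≤ dist x z * dist y z' + dist z y * dist x z' := hpt
    _ ≤ _ := by
      gcongr

end aux

/-- `sinh w ≤ sinh (u + v)` implies `tanh w ≤ tanh u + tanh v`, in algebraic form. -/
lemma tanh_aux {A B C D E F : ℝ} (hA : 0 ≤ A) (hC : 0 ≤ C) (hE : 0 ≤ E) (hB : 0 < B) (hD : 0 < D)
    (hF : 0 < F) (hAB : B ^ 2 = A ^ 2 + 1) (hCD : D ^ 2 = C ^ 2 + 1) (hEF : F ^ 2 = E ^ 2 + 1)
    (h : E ≤ A * D + C * B) : E / F ≤ A / B + C / D := by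
  have hT : 0 ≤ A * D + C * B := by positivity
  rw [div_add_div _ _ hB.ne' hD.ne', div_le_div_iff₀ hF (by positivity)]
  have h1 : E * (B * D) ≤ (A * D + B * C) * F := by
    refine (pow_le_pow_iff_left₀ (by positivity) (by positivity) two_ne_zero).1 ?_
    have h2 : (A * D + B * C) ^ 2 + 1 = (B * D + A * C) ^ 2 := by nlinarith
    have h3 : (B * D) ^ 2 ≤ (B * D + A * C) ^ 2 := by
      have : 0 ≤ A * C := by positivity
      have : 0 ≤ B * D := by positivity
      nlinarith
    have h4 : E ^ 2 ≤ (A * D + B * C) ^ 2 := by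
      have : A * D + C * B = A * D + B * C := by ring
      rw [this] at h
      exact pow_le_pow_left₀ hE h 2
    rw [mul_pow E, mul_pow (A * D + B * C), hEF]
    have h5 : E ^ 2 * (B * D) ^ 2 ≤ E ^ 2 * ((A * D + B * C) ^ 2 + 1) := by
      rw [h2]
      exact mul_le_mul_of_nonneg_left h3 (sq_nonneg _)
    nlinarith
  linarith

/-- **The point pair function of the complement of a subspace is a metric.**
(1) Let `L` be a linear subspace of `ℝⁿ`, different from `ℝⁿ`, and `G` its complement. Then `p_G` is a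
metric on `G`: for all `x, y, z` in `G` we have `0 ≤ p_G(x,y) < 1`, `p_G(x,y) = 0` if and only if
`x = y`, `p_G(x,y) = p_G(y,x)` and `p_G(x,y) ≤ p_G(x,z) + p_G(z,y)`.
(2) In particular this holds for the complement `G` of the `z`-axis in `ℝ³`; there `∂G` is the `z`-axis
and `d_G(x) = √(x₁² + x₂²)`. -/
theorem result :
    (∀ (n : ℕ) (L : Submodule ℝ (EuclideanSpace ℝ (Fin n))), L ≠ ⊤ →
      ∀ G : Set (EuclideanSpace ℝ (Fin n)), G = (L : Set (EuclideanSpace ℝ (Fin n)))ᶜ →
        ∀ x ∈ G, ∀ y ∈ G, 0 ≤ pointPair G x y ∧ pointPair G x y < 1 ∧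
          (pointPair G x y = 0 ↔ x = y) ∧ pointPair G x y = pointPair G y x ∧
          ∀ z ∈ G, pointPair G x y ≤ pointPair G x z + pointPair G z y) ∧
    ((∀ x : EuclideanSpace ℝ (Fin 3), x ∈ frontier offAxis ↔ x 0 = 0 ∧ x 1 = 0) ∧
      (∀ x : EuclideanSpace ℝ (Fin 3), bdist offAxis x = √(x 0 ^ 2 + x 1 ^ 2)) ∧
      ∀ x ∈ offAxis, ∀ y ∈ offAxis, 0 ≤ pointPair offAxis x y ∧ pointPair offAxis x y < 1 ∧
        (pointPair offAxis x y = 0 ↔ x = y) ∧ pointPair offAxis x y = pointPair offAxis y x ∧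
        ∀ z ∈ offAxis, pointPair offAxis x y ≤ pointPair offAxis x z + pointPair offAxis z y) := by
  have hfr : ∀ (n : ℕ) (L : Submodule ℝ (EuclideanSpace ℝ (Fin n))), L ≠ ⊤ →
      frontier (L : Set (EuclideanSpace ℝ (Fin n)))ᶜ = L := by
    intro n L hL
    have hcl : IsClosed (L : Set (EuclideanSpace ℝ (Fin n))) := L.closed_of_finiteDimensional
    rw [frontier_compl, hcl.frontier_eq]
    have : interior (L : Set (EuclideanSpace ℝ (Fin n))) = ∅ := by
      by_contra h
      exact hL (Submodule.eq_top_of_nonempty_interior' L (nonempty_iff_ne_empty.2 h))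
    rw [this, sdiff_empty]
  have main : ∀ (n : ℕ) (L : Submodule ℝ (EuclideanSpace ℝ (Fin n))), L ≠ ⊤ →
      ∀ G : Set (EuclideanSpace ℝ (Fin n)), G = (L : Set (EuclideanSpace ℝ (Fin n)))ᶜ →
        ∀ x ∈ G, ∀ y ∈ G, 0 ≤ pointPair G x y ∧ pointPair G x y < 1 ∧
          (pointPair G x y = 0 ↔ x = y) ∧ pointPair G x y = pointPair G y x ∧
          ∀ z ∈ G, pointPair G x y ≤ pointPair G x z + pointPair G z y := by
    rintro n L hL G rfl
    have hcl : IsClosed (L : Set (EuclideanSpace ℝ (Fin n))) := L.closed_of_finiteDimensional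
    have hne : (L : Set (EuclideanSpace ℝ (Fin n))).Nonempty := ⟨0, L.zero_mem⟩
    have hpos : ∀ x ∈ (L : Set (EuclideanSpace ℝ (Fin n)))ᶜ,
        0 < infDist x (L : Set (EuclideanSpace ℝ (Fin n))) := fun x hx =>
      (hcl.notMem_iff_infDist_pos hne).1 hx
    have hb : ∀ x, bdist (L : Set (EuclideanSpace ℝ (Fin n)))ᶜ x =
        infDist x (L : Set (EuclideanSpace ℝ (Fin n))) := fun x => by
      unfold bdist
      rw [hfr n L hL]
    have hrad : ∀ x ∈ (L : Set (EuclideanSpace ℝ (Fin n)))ᶜ,
        ∀ y ∈ (L : Set (EuclideanSpace ℝ (Fin n)))ᶜ,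
        0 < dist x y ^ 2 + 4 * infDist x (L : Set (EuclideanSpace ℝ (Fin n))) *
          infDist y (L : Set (EuclideanSpace ℝ (Fin n))) := by
      intro x hx y hy
      have := hpos x hx
      have := hpos y hy
      positivity
    intro x hx y hy
    have hsymm : pointPair (L : Set (EuclideanSpace ℝ (Fin n)))ᶜ x y =
        pointPair (L : Set (EuclideanSpace ℝ (Fin n)))ᶜ y x := by
      unfold pointPair
      rw [dist_comm x y]
      congr 2
      ring
    refine ⟨?_, ?_, ?_, hsymm, ?_⟩
    · unfold pointPair; positivity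
    · unfold pointPair
      rw [hb, hb, div_lt_one (Real.sqrt_pos.2 (hrad x hx y hy))]
      apply Real.lt_sqrt_of_sq_lt
      have := hpos x hx
      have := hpos y hy
      have : 0 < 4 * infDist x (L : Set (EuclideanSpace ℝ (Fin n))) *
        infDist y (L : Set (EuclideanSpace ℝ (Fin n))) := by positivity
      linarith
    · unfold pointPair
      rw [hb, hb, div_eq_zero_iff, dist_eq_zero]
      constructor
      · rintro (h | h)
        · exact h
        · exact absurd h (Real.sqrt_pos.2 (hrad x hx y hy)).ne'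
      · exact Or.inl
    · intro z hz
      unfold pointPair
      rw [hb, hb, hb]
      set a := infDist x (L : Set (EuclideanSpace ℝ (Fin n))) with ha
      set b := infDist y (L : Set (EuclideanSpace ℝ (Fin n))) with hb'
      set c := infDist z (L : Set (EuclideanSpace ℝ (Fin n))) with hc
      have ha0 : 0 < a := hpos x hx
      have hb0 : 0 < b := hpos y hy
      have hc0 : 0 < c := hpos z hz
      have hpt := ptolemy L x y z
      rw [← ha, ← hb', ← hc] at hpt
      have hxy : 0 ≤ dist x y := dist_nonneg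
      have hxz : 0 ≤ dist x z := dist_nonneg
      have hzy : 0 ≤ dist z y := dist_nonneg
      -- normalise by `√(4 a b)` etc.
      have h4ab : 0 < √(4 * a * b) := Real.sqrt_pos.2 (by positivity)
      have h4ac : 0 < √(4 * a * c) := Real.sqrt_pos.2 (by positivity)
      have h4cb : 0 < √(4 * c * b) := Real.sqrt_pos.2 (by positivity)
      have s1 : √(4 * a * b) ^ 2 = 4 * a * b := Real.sq_sqrt (by positivity)
      have s2 : √(4 * a * c) ^ 2 = 4 * a * c := Real.sq_sqrt (by positivity)
      have s3 : √(4 * c * b) ^ 2 = 4 * c * b := Real.sq_sqrt (by positivity)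
      have t1 : √(dist x y ^ 2 + 4 * a * b) ^ 2 = dist x y ^ 2 + 4 * a * b :=
        Real.sq_sqrt (by positivity)
      have t2 : √(dist x z ^ 2 + 4 * a * c) ^ 2 = dist x z ^ 2 + 4 * a * c :=
        Real.sq_sqrt (by positivity)
      have t3 : √(dist z y ^ 2 + 4 * c * b) ^ 2 = dist z y ^ 2 + 4 * c * b :=
        Real.sq_sqrt (by positivity)
      have p1 : 0 < √(dist x y ^ 2 + 4 * a * b) := Real.sqrt_pos.2 (by positivity)
      have p2 : 0 < √(dist x z ^ 2 + 4 * a * c) := Real.sqrt_pos.2 (by positivity)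
      have p3 : 0 < √(dist z y ^ 2 + 4 * c * b) := Real.sqrt_pos.2 (by positivity)
      have hprod : √(4 * a * c) * √(4 * c * b) = 2 * c * √(4 * a * b) := by
        rw [← Real.sqrt_mul (by positivity)]
        rw [show 4 * a * c * (4 * c * b) = (2 * c) ^ 2 * (4 * a * b) by ring,
          Real.sqrt_mul (by positivity), Real.sqrt_sq (by positivity)]
      have key := tanh_aux (A := dist x z / √(4 * a * c)) (B := √(dist x z ^ 2 + 4 * a * c) / √(4 * a * c))
        (C := dist z y / √(4 * c * b)) (D := √(dist z y ^ 2 + 4 * c * b) / √(4 * c * b))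
        (E := dist x y / √(4 * a * b)) (F := √(dist x y ^ 2 + 4 * a * b) / √(4 * a * b))
        (by positivity) (by positivity) (by positivity) (by positivity) (by positivity)
        (by positivity) (by rw [div_pow, div_pow, s2, t2]; field_simp)
        (by rw [div_pow, div_pow, s3, t3]; field_simp)
        (by rw [div_pow, div_pow, s1, t1]; field_simp)
        (by
          rw [div_mul_div_comm, div_mul_div_comm, mul_comm √(4 * c * b) √(4 * a * c), hprod,
            ← add_div, div_le_div_iff₀ h4ab (by positivity)]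
          have : dist x y * (2 * c * √(4 * a * b)) = (dist x y * (2 * c)) * √(4 * a * b) := by ring
          rw [this]
          exact mul_le_mul_of_nonneg_right hpt h4ab.le)
      rwa [div_div_div_cancel_right₀ h4ab.ne', div_div_div_cancel_right₀ h4ac.ne',
        div_div_div_cancel_right₀ h4cb.ne'] at key
  -- the `z`-axis
  let Z : Submodule ℝ (EuclideanSpace ℝ (Fin 3)) :=
    { carrier := {x | x 0 = 0 ∧ x 1 = 0}
      add_mem' := by
        rintro x y ⟨h1, h2⟩ ⟨h3, h4⟩
        simp only [mem_ofPred_eq] at *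
        simp [h1, h2, h3, h4]
      zero_mem' := by simp
      smul_mem' := by
        rintro c x ⟨h1, h2⟩
        simp only [mem_ofPred_eq] at *
        simp [h1, h2] }
  have hZmem : ∀ x : EuclideanSpace ℝ (Fin 3), x ∈ (Z : Set (EuclideanSpace ℝ (Fin 3))) ↔
      x 0 = 0 ∧ x 1 = 0 := fun x => Iff.rfl
  have hZtop : Z ≠ ⊤ := by
    intro h
    have h1 : (EuclideanSpace.single 0 1 : EuclideanSpace ℝ (Fin 3)) ∈ Z := by
      rw [h]; exact Submodule.mem_top
    have h2 := h1.1
    simp at h2
  have hZc : offAxis = (Z : Set (EuclideanSpace ℝ (Fin 3)))ᶜ := by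
    ext x
    rw [mem_compl_iff, hZmem]
    rfl
  have hZfr : frontier offAxis = (Z : Set (EuclideanSpace ℝ (Fin 3))) := by
    rw [hZc]; exact hfr 3 Z hZtop
  refine ⟨main, fun x => by rw [hZfr]; exact hZmem x, ?_, main 3 Z hZtop offAxis hZc⟩
  intro x
  unfold bdist
  rw [hZfr]
  apply le_antisymm
  · have hmem : (!₂[0, 0, x 2] : EuclideanSpace ℝ (Fin 3)) ∈ (Z : Set (EuclideanSpace ℝ (Fin 3))) := by
      rw [hZmem]; simp
    refine (infDist_le_dist_of_mem hmem).trans (le_of_eq ?_)
    rw [EuclideanSpace.dist_eq]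
    simp [Fin.sum_univ_three, Real.dist_eq, sq_abs]
  · rw [le_infDist ⟨0, Z.zero_mem⟩]
    intro y hy
    rw [hZmem] at hy
    rw [EuclideanSpace.dist_eq]
    apply Real.sqrt_le_sqrt
    rw [Fin.sum_univ_three, Real.dist_eq, Real.dist_eq, Real.dist_eq, sq_abs, sq_abs, sq_abs, hy.1, hy.2]
    nlinarith [sq_nonneg (x 2 - y 2)]

end Pool.Agent.Results.MP_a15e14_gt.PointPairMetric
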